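import Mathlib

/-!
# p-conjugacy: transitivity is not inherited from the variants

We give a finite semigroup `S` such that p-conjugacy is transitive in every variant of `S`
but is not transitive in `S` itself.
-/

set_option autoImplicit false

namespace Pool.Agent.Results.MP_9df05e_al.VariantCounterexample

/-- `T` has a two-sided identity element, that is, `T` is a monoid. -/
def HasIdentity (T : Type) [Semigroup T] : Prop :=
  ∃ e : T, ∀ x : T, e * x = x ∧ x * e = x

/-- p-conjugacy on a semigroup `T`: there are `u v` in `T¹` with `a = u v` and `b = v u`,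
where `T¹` is `T` if `T` is a monoid and `T` with an identity adjoined (`WithOne T`) otherwise. -/
def PConj (T : Type) [Semigroup T] (a b : T) : Prop :=
  (HasIdentity T ∧ ∃ u v : T, a = u * v ∧ b = v * u) ∨
  (¬ HasIdentity T ∧ ∃ u v : WithOne T, (a : WithOne T) = u * v ∧ (b : WithOne T) = v * u)

/-- The underlying set of the variant of the semigroup `S` at `a`: it is `S` itself. -/
def Variant (S : Type) [Semigroup S] (_a : S) : Type := S

/-- The product `x ∘ y = x a y` of the variant of `S` at `a`. -/
def vmul {S : Type} [Semigroup S] (a x y : S) : S := x * a * y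

theorem vmul_assoc {S : Type} [Semigroup S] (a x y z : S) :
    vmul a (vmul a x y) z = vmul a x (vmul a y z) := by
  unfold vmul
  simp only [mul_assoc]

/-- The variant of `S` at `a` is a semigroup under `x ∘ y = x a y`. -/
instance instSemigroupVariant (S : Type) [Semigroup S] (a : S) : Semigroup (Variant S a) where
  mul := @vmul S _ a
  mul_assoc x y z := @vmul_assoc S _ a x y z

/-- Sanity check: the product in the variant is `x a y`. -/
theorem variant_mul (S : Type) [Semigroup S] (a : S) (x y : S) :
    @HMul.hMul (Variant S a) (Variant S a) (Variant S a) _ x y = (x * a * y : S) := rfl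

theorem oneOrCoe {T : Type} (u : WithOne T) : u = 1 ∨ ∃ x : T, u = (x : WithOne T) := by
  cases u with
  | one => exact Or.inl rfl
  | coe x => exact Or.inr ⟨x, rfl⟩

/-- Sanity check: in every semigroup, `PConj` is the relation
`a = b` or `a = u v, b = v u` for some `u v` in the semigroup. -/
theorem pConj_iff (T : Type) [Semigroup T] (a b : T) :
    PConj T a b ↔ a = b ∨ ∃ u v : T, a = u * v ∧ b = v * u := by
  constructor
  · rintro (⟨_, h⟩ | ⟨_, u, v, h1, h2⟩)
    · exact Or.inr h
    · rcases (oneOrCoe u) with rfl | ⟨u, rfl⟩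
      · rw [one_mul] at h1
        rw [mul_one] at h2
        left
        exact WithOne.coe_inj.1 (h1.trans h2.symm)
      · rcases (oneOrCoe v) with rfl | ⟨v, rfl⟩
        · rw [mul_one] at h1
          rw [one_mul] at h2
          left
          exact WithOne.coe_inj.1 (h1.trans h2.symm)
        · right
          refine ⟨u, v, ?_, ?_⟩
          · exact WithOne.coe_inj.1 (by rw [h1, WithOne.coe_mul])
          · exact WithOne.coe_inj.1 (by rw [h2, WithOne.coe_mul])
  · intro h
    by_cases hT : HasIdentity T
    · left
      refine ⟨hT, ?_⟩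
      rcases h with rfl | h
      · obtain ⟨e, he⟩ := hT
        exact ⟨e, a, (he a).1.symm, (he a).2.symm⟩
      · exact h
    · right
      refine ⟨hT, ?_⟩
      rcases h with rfl | ⟨u, v, rfl, rfl⟩
      · exact ⟨1, (a : WithOne T), (one_mul _).symm, (mul_one _).symm⟩
      · exact ⟨(u : WithOne T), (v : WithOne T), WithOne.coe_mul u v, WithOne.coe_mul v u⟩

/-- The multiplication of the counterexample, on `{0, ..., 7}`:
`1 2 = 5`, `2 1 = 6 = 3 4`, `4 3 = 7`, and all other products are `0`. -/
def tab (i j : Fin 8) : Fin 8 :=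
  if i = 1 ∧ j = 2 then 5
  else if i = 2 ∧ j = 1 then 6
  else if i = 3 ∧ j = 4 then 6
  else if i = 4 ∧ j = 3 then 7
  else 0

theorem tab_tab (i j k : Fin 8) : tab (tab i j) k = 0 := by
  revert i j k; decide

theorem tab_tab' (i j k : Fin 8) : tab i (tab j k) = 0 := by
  revert i j k; decide

/-- The counterexample: the set `{0, ..., 7}` with the multiplication `tab`. -/
@[reducible] def semigroup8 : Semigroup (Fin 8) where
  mul := tab
  mul_assoc x y z := (tab_tab x y z).trans (tab_tab' x y z).symm

/-- **Negative answer to Q1.**  There is a finite semigroup `S` such that p-conjugacy is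
transitive in every variant of `S`, while p-conjugacy is not transitive in `S`. -/
theorem result :
    ∃ (S : Type) (_ : Semigroup S), Finite S ∧
      (∀ a : S, ∀ x y z : Variant S a,
        PConj (Variant S a) x y → PConj (Variant S a) y z → PConj (Variant S a) x z) ∧
      ¬ (∀ x y z : S, PConj S x y → PConj S y z → PConj S x z) := by
  refine ⟨Fin 8, semigroup8, inferInstance, ?_, ?_⟩
  · intro a x y z hxy hyz
    let _ := semigroup8
    have key : ∀ p q : Variant (Fin 8) a, PConj (Variant (Fin 8) a) p q → p = q := by
      intro p q h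
      rcases (pConj_iff _ p q).1 h with h | ⟨u, v, h1, h2⟩
      · exact h
      · rw [h1, h2]
        exact (tab_tab u a v).trans (tab_tab v a u).symm
    have e1 := key x y hxy
    subst e1
    exact hyz
  · intro h
    have h1 : @PConj (Fin 8) semigroup8 (5 : Fin 8) (6 : Fin 8) :=
      (@pConj_iff (Fin 8) semigroup8 _ _).2 (Or.inr ⟨(1 : Fin 8), (2 : Fin 8),
        (by decide : (5 : Fin 8) = tab 1 2), (by decide : (6 : Fin 8) = tab 2 1)⟩)
    have h2 : @PConj (Fin 8) semigroup8 (6 : Fin 8) (7 : Fin 8) :=
      (@pConj_iff (Fin 8) semigroup8 _ _).2 (Or.inr ⟨(3 : Fin 8), (4 : Fin 8),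
        (by decide : (6 : Fin 8) = tab 3 4), (by decide : (7 : Fin 8) = tab 4 3)⟩)
    rcases (@pConj_iff (Fin 8) semigroup8 _ _).1 (h _ _ _ h1 h2) with h3 | ⟨u, v, h4, h5⟩
    · exact absurd h3 (by decide : ¬ (5 : Fin 8) = 7)
    · have : ∀ u v : Fin 8, ¬ ((5 : Fin 8) = tab u v ∧ (7 : Fin 8) = tab v u) := by decide
      exact this u v ⟨h4, h5⟩

end Pool.Agent.Results.MP_9df05e_al.VariantCounterexample
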